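import Pool.Agent.H76.MO.StmtD

/-!
# GLA: gluing of automorphisms
-/

set_option autoImplicit false

open Set Pool.Agent.TK Pool.Agent.H71.VK

namespace Pool.Agent.MO

variable {C : Type} {c0 : C}

/-- a permutation which preserves the values of points and pairs is an isomorphism -/
lemma isoH_of {M N : St (C × W)} (hM : BV c0 M) (hN : BV c0 N)
    (f : Equiv.Perm ℕ) (h1 : ∀ x, M.2 [x] = N.2 [f x])
    (h2 : ∀ x y, bn M x y = bn N (f x) (f y)) : IsoH f M N := by
  obtain ⟨m1, m2, m3, m4, m5⟩ := hM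
  obtain ⟨n1, n2, n3, n4, n5⟩ := hN
  refine ⟨fun u v => ?_, fun l => ?_⟩
  · rw [m1, n1]
    congr 1
    rw [ne_eq, ne_eq, f.injective.eq_iff]
  · match l with
    | [] => rw [List.map_nil, m2, n2]
    | [x] => exact h1 x
    | [x, y] =>
      change M.2 [x, y] = N.2 [f x, f y]
      exact Prod.ext ((m4 x y).trans (n4 _ _).symm) (h2 x y)
    | x :: y :: z :: l =>
      rw [m5 _ (by simp), n5 _ (by simp)]

lemma isoH_bn {M N : St (C × W)} {f : Equiv.Perm ℕ} (h : IsoH f M N) (x y : ℕ) :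
    bn N (f x) (f y) = bn M x y := by
  have h1 := h.2 [x, y]
  unfold bn
  rw [h1]
  rfl

/-- maps of lists agree if they agree along the zip -/
lemma map_zip_eq {β : Type} (u u' : ℕ → β) : ∀ (a a' : List ℕ), a.length = a'.length →
    (∀ p ∈ a.zip a', u p.1 = u' p.2) → a.map u = a'.map u'
  | [], [], _, _ => rfl
  | [], _ :: _, h, _ => by simp at h
  | _ :: _, [], h, _ => by simp at h
  | x :: a, x' :: a', h, H => by
    rw [List.map_cons, List.map_cons]
    congr 1
    · exact H (x, x') (by simp)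
    · exact map_zip_eq u u' a a' (by simpa using h) fun p hp => H p (by
        rw [List.zip_cons_cons]
        exact List.mem_cons_of_mem _ hp)

lemma fih_pt {M N : St (C × W)} {g : ℕ → ℕ} {a a' : List ℕ} {D D' : Set ℕ}
    (H : FIh g M a D N a' D') {x : ℕ} (hx : x ∈ D) : M.2 [x] = N.2 [g x] :=
  (H.2.2 [x] (by simpa using hx)).2.2 [(x, g x)] (by simp)

lemma fih_pr {M N : St (C × W)} {g : ℕ → ℕ} {a a' : List ℕ} {D D' : Set ℕ}
    (H : FIh g M a D N a' D') {x y : ℕ} (hx : x ∈ D) (hy : y ∈ D) :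
    bn M x y = bn N (g x) (g y) := by
  have h1 := (H.2.2 [x, y] (by
    intro z hz
    simp only [List.mem_cons, List.not_mem_nil, or_false] at hz
    rcases hz with rfl | rfl
    · exact hx
    · exact hy)).2.2 [(x, g x), (y, g y)] (by simp)
  exact congrArg Prod.snd h1

lemma fih_tp {M N : St (C × W)} {g : ℕ → ℕ} {a a' : List ℕ} {D D' : Set ℕ}
    (H : FIh g M a D N a' D') {x : ℕ} (hx : x ∈ D) : tp (bn M) a x = tp (bn N) a' (g x) := by
  unfold tp
  refine map_zip_eq _ _ a a' H.1 fun p hp => ?_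
  have h0 := H.2.2 [x] (by simpa using hx)
  have h1 := h0.2.2 [(x, g x), p] (by
    intro z hz
    simp only [List.mem_cons, List.not_mem_nil, or_false] at hz
    rcases hz with rfl | rfl
    · simp
    · exact List.mem_append_left _ hp)
  have h2 := h0.2.2 [p, (x, g x)] (by
    intro z hz
    simp only [List.mem_cons, List.not_mem_nil, or_false] at hz
    rcases hz with rfl | rfl
    · exact List.mem_append_left _ hp
    · simp)
  have e1 : bn M x p.1 = bn N (g x) p.2 := congrArg Prod.snd h1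
  have e2 : bn M p.1 x = bn N p.2 (g x) := congrArg Prod.snd h2
  exact Prod.ext e1 e2

lemma bn_eq_of_ee {c c' : ℕ → ℕ → W} {x y x' y' : ℕ} (h : ee c x y = ee c' x' y') :
    c x y = c' x' y' ∧ c y x = c' y' x' := ⟨congrArg Prod.fst h, congrArg Prod.snd h⟩

theorem pf_GLA : T_GLA C c0 := by
  classical
  intro M hM π hV g hg
  have hb : BijOn g (st (bn M) π) (st (bn M) π) := hg.2.1
  let e : st (bn M) π ≃ st (bn M) π := hb.equiv g
  let f : Equiv.Perm ℕ := Equiv.Perm.ofSubtype (p := fun x => x ∈ st (bn M) π) e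
  have f1 : ∀ a ∈ st (bn M) π, f a = g a := fun a ha => by
    have := Equiv.Perm.ofSubtype_apply_of_mem (p := fun x => x ∈ st (bn M) π) e ha
    exact this
  have f2 : ∀ x, x ∉ st (bn M) π → f x = x := fun x hx =>
    Equiv.Perm.ofSubtype_apply_of_not_mem _ hx
  refine ⟨f, ?_, f1, f2⟩
  have hgD : ∀ x ∈ st (bn M) π, f x ∈ st (bn M) π := fun x hx => by
    rw [f1 x hx]
    exact hb.mapsTo hx
  have htp : ∀ x ∈ st (bn M) π, tp (bn M) (zl π) x = tp (bn M) (zl π) (f x) := fun x hx => by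
    rw [f1 x hx]
    exact fih_tp hg hx
  refine isoH_of hM hM f (fun x => ?_) (fun x y => ?_)
  · by_cases hx : x ∈ st (bn M) π
    · rw [f1 x hx]
      exact fih_pt hg hx
    · rw [f2 x hx]
  · by_cases hx : x ∈ st (bn M) π
    · by_cases hy : y ∈ st (bn M) π
      · rw [f1 x hx, f1 y hy]
        exact fih_pr hg hx hy
      · rw [f2 y hy]
        exact (bn_eq_of_ee (ctl hV hx (hgD x hx) (htp x hx) hy)).1
    · by_cases hy : y ∈ st (bn M) π
      · rw [f2 x hx]
        exact (bn_eq_of_ee (ctl hV hy (hgD y hy) (htp y hy) hx)).2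
      · rw [f2 x hx, f2 y hy]

end Pool.Agent.MO
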