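import Pool.Agent.H41.MO.Mvm
import Pool.Agent.H41.ST.GEN1

/-!
# GNG: the general theorem for the group generated by local automorphisms
-/

set_option autoImplicit false

open Set Topology MeasureTheory Pool.Agent.TK Pool.Agent.H71.VK Pool.Agent.H71

namespace Pool.Agent.MO

open Pool.Agent.H41.ST (RelN FlatN CorrN liftN flxN fliN flcN)

/-- isomorphic quotient structures come from isomorphic structures -/
lemma iso_of_flatG {C : Type} {O : Set (Tr C)} {M N : St (C × W)} {ν ν' : List ℕ → ℕ}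
    {φ φ' : Y (C × W)} {g : Equiv.Perm ℕ} (h1 : FlatN (NG O M) M ν φ)
    (h2 : FlatN (NG O N) N ν' φ') (hg : ∀ i j, φ' (g i) (g j) = φ i j) : Iso M N := by
  obtain ⟨hR, hon⟩ := flcN _ _ M N ν ν' φ φ' g h1 h2 hg
  obtain ⟨m, hm⟩ := hR.tot []
  obtain ⟨h, hh, -, -⟩ := liftN hR hon [] m hm
  exact ⟨h, by simp, hh.1, hh.2⟩

theorem pf_GNG {C : Type} {c0 : C} [MeasurableSpace C] [StandardBorelSpace C] : T_GNG C c0 := by
  classical
  intro O hO X hX hV P hP
  by_cases hperf : Perf X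
  · exact Or.inl hperf
  right
  let := upgradeStandardBorel (St (C × W))
  have hA : AnalyticSet X := hX.analyticSet
  rw [AnalyticSet] at hA
  rcases hA with rfl | ⟨q, hq, hqX⟩
  · exact Or.inl ⟨∅, countable_empty, by simp⟩
  have hqm : Measurable q := hq.measurable
  have hqmem : ∀ z, q z ∈ X := fun z => by rw [← hqX]; exact mem_range_self z
  have hqV : ∀ z, BV c0 (q z) := fun z => hV _ (hqmem z)
  have hRel : ∀ l m, MeasurableSet {z | RelN (NG O (q z)) l m} := by
    intro l m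
    have h1 := hqm ((pf_RLG (C := C) (c0 := c0)).2 O hO l m)
    have h2 : q ⁻¹' {M : St (C × W) | BV c0 M ∧ RelN (NG O M) l m} =
        {z | RelN (NG O (q z)) l m} := by
      ext z
      exact ⟨fun h => h.2, fun h => ⟨hqV z, h⟩⟩
    rwa [h2] at h1
  obtain ⟨ν, Φ, hΦ, hF⟩ := flxN (ℕ → ℕ) q (fun z => NG O (q z)) hqm (fun z => ng_le O (q z)) hRel
  -- isomorphism of the structures and of the quotients
  have key1 : ∀ z z' (g : Equiv.Perm ℕ), (∀ i j, Φ z' (g i) (g j) = Φ z i j) →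
      Iso (q z) (q z') := fun z z' g hg => iso_of_flatG (hF z) (hF z') hg
  have key2 : ∀ z z', Iso (q z) (q z') →
      ∃ g : Equiv.Perm ℕ, ∀ i j, Φ z' (g i) (g j) = Φ z i j := by
    rintro z z' ⟨h, -, h1, h2⟩
    have hI : IsoH h (q z) (q z') := ⟨h1, h2⟩
    obtain ⟨g, hg, -⟩ := fliN _ _ (q z) (q z') (ν z) (ν z') (Φ z) (Φ z') h
      (hF z) (hF z') hI (pf_RTG O _ _ h hI)
      (pf_RTG O _ _ _ (Pool.Agent.H94.VK.isoH_inv hI))
    exact ⟨g, hg⟩
  have isymm : ∀ M N : St (C × W), Iso M N → Iso N M := by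
    rintro M N ⟨h, -, h1, h2⟩
    refine ⟨h.symm, by simp, fun u v => ?_, fun l => ?_⟩
    · rw [h1]; simp
    · rw [h2, List.map_map]; simp
  have itrans : ∀ M N L : St (C × W), Iso M N → Iso N L → Iso M L := by
    rintro M N L ⟨h, -, h1, h2⟩ ⟨k, -, k1, k2⟩
    refine ⟨h.trans k, by simp, fun u v => ?_, fun l => ?_⟩
    · rw [h1, k1]; rfl
    · rw [h2, k2, List.map_map]; rfl
  let := permTop
  let := permMeas
  have := polishSpace_perm
  have := isTopologicalGroup_perm
  have := borelSpace_perm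
  let := yAct (C × W)
  rcases Pool.Agent.H71.HV.localHjorth (Equiv.Perm ℕ) (Y (C × W)) (measurable_yAct (C × W)) Φ hΦ
    with ⟨c, hc⟩ | ⟨F, hF1, hF2⟩ | h3
  · left
    let good : ℕ → Prop := fun n => ∃ z, ∃ g : Equiv.Perm ℕ, g • Φ z = c n
    let zz : ℕ → (ℕ → ℕ) := fun n => if h : good n then h.choose else fun _ => 0
    have hzz : ∀ n, good n → ∃ g : Equiv.Perm ℕ, g • Φ (zz n) = c n := by
      intro n hn
      have : zz n = hn.choose := dif_pos hn
      rw [this]
      exact hn.choose_spec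
    refine ⟨range fun n => q (zz n), countable_range _, ?_⟩
    intro M hM
    rw [← hqX] at hM
    obtain ⟨z, rfl⟩ := hM
    obtain ⟨n, g, hg⟩ := hc z
    obtain ⟨g', hg'⟩ := hzz n ⟨z, g, hg⟩
    refine ⟨_, ⟨n, rfl⟩, ?_⟩
    have h1 : (g'⁻¹ * g) • Φ z = Φ (zz n) := by
      rw [mul_smul, hg, ← hg', inv_smul_smul]
    exact key1 z (zz n) _ ((yAct_smul _ _ _).1 h1)
  · exfalso
    apply hperf
    refine ⟨fun x => q (F x), hqm.comp hF1.measurable, fun x => hqmem _, ?_⟩
    intro x x' hxx hiso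
    obtain ⟨g, hg⟩ := key2 _ _ hiso
    exact hF2 x x' hxx g ((yAct_smul _ _ _).2 hg)
  · right
    rintro ⟨T', hT', h4⟩
    apply h3
    let good : St (C × W) → Prop := fun N => ∃ z, Iso (q z) N
    let zz : St (C × W) → (ℕ → ℕ) := fun n => if h : good n then h.choose else fun _ => 0
    have hzz : ∀ n, good n → Iso (q (zz n)) n := by
      intro n hn
      have : zz n = hn.choose := dif_pos hn
      rw [this]
      exact hn.choose_spec
    have hc : ((fun N => Φ (zz N)) '' T' ∪ {Φ fun _ => 0}).Countable :=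
      (hT'.image _).union (countable_singleton _)
    obtain ⟨c, hc'⟩ := hc.exists_eq_range ⟨_, Or.inr rfl⟩
    refine ⟨c, fun z hz => ?_⟩
    have hstab : MulAction.stabilizer (Equiv.Perm ℕ) (Φ z) = AutY (Φ z) := by
      ext g
      rw [MulAction.mem_stabilizer_iff]
      exact yAct_smul g (Φ z) (Φ z)
    rw [hstab] at hz
    obtain ⟨N, hN, hiso⟩ := h4 (q z) (hqmem z)
      (hP (q z) (hqmem z) (ν z) (Φ z) (hF z) hz)
    have h5 : Iso (q z) (q (zz N)) := itrans _ _ _ hiso (isymm _ _ (hzz N ⟨z, hiso⟩))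
    obtain ⟨g, hg⟩ := key2 _ _ h5
    have h6 : Φ (zz N) ∈ range c := by
      rw [← hc']
      exact Or.inl ⟨N, hN, rfl⟩
    obtain ⟨n, hn⟩ := h6
    refine ⟨n, g, ?_⟩
    rw [hn]
    exact (yAct_smul _ _ _).2 hg

end Pool.Agent.MO
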