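import Pool.Agent.H41.MO.Glu
import Pool.Agent.H41.ST.Loc

/-!
# RTG, EMA: transport and imitation of automorphisms
-/

set_option autoImplicit false

open Set Pool.Agent.TK Pool.Agent.H71.VK

namespace Pool.Agent.MO

open Pool.Agent.H41.ST (RelN FlatN)
open Pool.Agent.H94.VK (isoH_fih isoH_inv map_map_inv)

variable {C : Type} {c0 : C}

lemma ng_le (O : Set (Tr C)) (M : St (C × W)) : NG O M ≤ AutG M := by
  unfold NG
  rw [Subgroup.closure_le]
  intro f hf
  exact hf.1

/-- an isomorphism of whole structures is an isomorphism of triples -/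
lemma isoH_fih2 {D : Type} {M N : St D} {f : Equiv.Perm ℕ} (H : IsoH f M N) (s : List ℕ)
    (P : Set ℕ) : FIh f M s P N (s.map f) (f '' P) := by
  refine ⟨(List.length_map _).symm, ⟨fun z hz => mem_image_of_mem f hz, f.injective.injOn,
    fun z hz => hz⟩, fun x _ => ?_⟩
  have hall : ∀ z ∈ s.zip (s.map f) ++ x.map (fun z => (z, f z)), z.2 = f z.1 := by
    intro z hz
    rcases List.mem_append.1 hz with h | h
    · rw [← Pool.Agent.H94.VK.zip_map_eq] at h
      obtain ⟨w, -, rfl⟩ := List.mem_map.1 h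
      rfl
    · obtain ⟨w, -, rfl⟩ := List.mem_map.1 h
      rfl
  refine ⟨?_, ?_, ?_⟩
  · intro z hz w hw
    rw [hall z hz, hall w hw, f.injective.eq_iff]
  · intro z hz w hw
    rw [hall z hz, hall w hw]
    exact H.1 z.1 w.1
  · intro q hq
    rw [H.2 (q.map Prod.fst), List.map_map]
    exact congrArg N.2 (List.map_congr_left fun z hz => (hall z (hq z hz)).symm)

/-- membership of the type in `O` is transported -/
lemma inO_iso {O : Set (Tr C)} {M N : St (C × W)} {f : Equiv.Perm ℕ} (H : IsoH f M N)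
    {z : List ℕ} {P : Set ℕ} (h : InO O M z P) : InO O N (z.map f) (f '' P) := by
  obtain ⟨t, ht, h1⟩ := h
  exact ⟨t, ht, (FI.symm ⟨f, isoH_fih2 H z P⟩).trans h1⟩

lemma isA_conj {O : Set (Tr C)} {M N : St (C × W)} {h f : Equiv.Perm ℕ}
    (hh : IsoH h M N) (hf : IsA O M f) : IsA O N (h * f * h⁻¹) := by
  obtain ⟨h1, π, h2, h3, h4⟩ := hf
  have hb : ∀ x y, bn N (h x) (h y) = bn M x y := isoH_bn hh
  refine ⟨RTRaux.isoH_conj hh h1, mp h π, (vd_iso h hb π).2 h2, ?_, ?_⟩
  · rw [zl_mp, st_iso h hb]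
    exact inO_iso hh h3
  · intro x hx
    rw [st_iso h hb] at hx
    have k1 : h⁻¹ x ∉ st (bn M) π := fun hk => hx ⟨h⁻¹ x, hk, by simp⟩
    have := h4 _ k1
    rw [Equiv.Perm.mul_apply, Equiv.Perm.mul_apply, this]
    exact h.apply_symm_apply x

theorem pf_RTG : T_RTG C := by
  intro O M N h hh l m hR
  obtain ⟨n, hn, rfl⟩ := hR
  have key : NG O M ≤ (NG O N).comap (MulAut.conj h).toMonoidHom := by
    rw [NG, Subgroup.closure_le]
    intro f hf
    exact Subgroup.subset_closure (isA_conj hh hf)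
  refine ⟨h * n * h⁻¹, key hn, ?_⟩
  rw [List.map_map, List.map_map]
  apply List.map_congr_left
  intro a _
  simp [Equiv.Perm.mul_apply]

theorem pf_EMA : T_EMA C c0 := by
  intro O M hM π hV hO k hk Z hZ hkZ v hv
  have hb : ∀ x y, bn M (k x) (k y) = bn M x y := isoH_bn hk
  have hfix : ∀ a ∈ dl π, k a = a := fun a ha => hkZ a (hZ ha)
  have himg : k '' st (bn M) π = st (bn M) π := st_fix k hb hfix
  have hFI : FIh k M (zl π) (st (bn M) π) M (zl π) (st (bn M) π) :=
    isoH_fih hk (fun z hz => hfix z (zl_sub_dl π hz)) himg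
  obtain ⟨f, f1, f2, f3⟩ := pf_GLA (c0 := c0) M hM π hV k hFI
  refine ⟨f, Subgroup.subset_closure ⟨f1, π, hV, hO, f3⟩, f2 v hv, fun x hx => ?_⟩
  by_cases h : x ∈ st (bn M) π
  · rw [f2 x h, hkZ x hx]
  · exact f3 x h

end Pool.Agent.MO
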