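import Pool.Agent.H76.MO.StmtD
import Pool.Agent.H71.VK.ASM

/-!
# MST, MBV, FIMP: Borel conditions on pieces
-/

set_option autoImplicit false

open Set Pool.Agent.TK Pool.Agent.H71.VK

namespace Pool.Agent.MO

open Pool.Agent.H94.VK (meas_rtg)

variable {C : Type} [MeasurableSpace C]

instance : Countable Tm := Encodable.countable

lemma meas_bn (x y : ℕ) : Measurable fun M : St (C × W) => bn M x y :=
  measurable_snd.comp (measurable_value [x, y])

lemma meas_bnt (x y : ℕ) (t : Tm) : Measurable fun M : St (C × W) => bn M x y t :=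
  (measurable_pi_apply t).comp (meas_bn x y)

lemma meas_hl (F : Tab) (x y v : ℕ) : MeasurableSet {M : St (C × W) | v ∈ hl (bn M) F x y} := by
  have h : {M : St (C × W) | v ∈ hl (bn M) F x y} = {_M : St (C × W) | F.1.ty.2 = F.2.ty.2} ∩
      ⋃ p : List (Option Tm), {M : St (C × W) | bn M x v (F.1.act p) = bn M y v (F.2.act p)}ᶜ := by
    ext M
    simp only [hl, mem_ofPred_eq, mem_inter_iff, mem_iUnion, mem_compl_iff, ne_eq]
  rw [h]
  refine (MeasurableSet.const _).inter (MeasurableSet.iUnion fun p => MeasurableSet.compl ?_)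
  exact measurableSet_eq_fun (meas_bnt _ _ _) (meas_bnt _ _ _)

lemma meas_eeq (x y x' y' : ℕ) :
    MeasurableSet {M : St (C × W) | ee (bn M) x y = ee (bn M) x' y'} :=
  measurableSet_eq_fun ((meas_bn x y).prodMk (meas_bn y x))
    ((meas_bn x' y').prodMk (meas_bn y' x'))

lemma meas_CT : MeasurableSet {M : St (C × W) | CT (bn M)} := by
  have h : {M : St (C × W) | CT (bn M)} = ⋂ F : Tab, ⋂ x, ⋂ y, ⋂ v, ⋂ v', ⋂ u,
      ({M : St (C × W) | ee (bn M) v x = ee (bn M) v' x}ᶜ ∪
      ({M : St (C × W) | ee (bn M) v y = ee (bn M) v' y}ᶜ ∪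
      (({M : St (C × W) | v ∈ hl (bn M) F x y} ∩ {M : St (C × W) | u ∈ hl (bn M) F x y}ᶜ ∪
        {M : St (C × W) | v ∈ hl (bn M) F x y}ᶜ ∩ {M : St (C × W) | u ∈ hl (bn M) F x y})ᶜ ∪
      {M : St (C × W) | ee (bn M) v u = ee (bn M) v' u}))) := by
    ext M
    simp only [CT, mem_ofPred_eq, mem_iInter, mem_union, mem_compl_iff, mem_inter_iff]
    refine forall_congr' fun F => forall_congr' fun x => forall_congr' fun y =>
      forall_congr' fun v => forall_congr' fun v' => forall_congr' fun u => ?_
    tauto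
  rw [h]
  refine MeasurableSet.iInter fun F => MeasurableSet.iInter fun x => MeasurableSet.iInter fun y =>
    MeasurableSet.iInter fun v => MeasurableSet.iInter fun v' => MeasurableSet.iInter fun u => ?_
  exact (meas_eeq _ _ _ _).compl.union ((meas_eeq _ _ _ _).compl.union
    (((((meas_hl F x y v).inter (meas_hl F x y u).compl).union
      ((meas_hl F x y v).compl.inter (meas_hl F x y u))).compl).union (meas_eeq _ _ _ _)))

lemma meas_allmem {A : St (C × W) → Set ℕ} (hA : ∀ x, MeasurableSet {M : St (C × W) | x ∈ A M})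
    (u : List ℕ) : MeasurableSet {M : St (C × W) | ∀ z ∈ u, z ∈ A M} := by
  have h : {M : St (C × W) | ∀ z ∈ u, z ∈ A M} = ⋂ z ∈ ms u, {M : St (C × W) | z ∈ A M} := by
    ext M
    simp only [mem_ofPred_eq, mem_iInter, mem_ms]
  rw [h]
  exact MeasurableSet.biInter (to_countable _) fun z _ => hA z

theorem pf_MST : T_MST C := by
  intro π
  induction π with
  | nil => exact ⟨fun x => MeasurableSet.const _, meas_CT⟩
  | cons s π ih =>
    obtain ⟨S, F, v, β⟩ := s
    obtain ⟨ih1, ih2⟩ := ih
    refine ⟨fun x => ?_, ?_⟩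
    · cases β with
      | true =>
        have h : {M : St (C × W) | x ∈ st (bn M) ((S, F, v, true) :: π)} =
            {M : St (C × W) | x ∈ st (bn M) π} ∩ ({_M : St (C × W) | x ∉ v :: (S ++ zl π)} ∩
              {M : St (C × W) | x ∈ hl (bn M) F v (S.headD v)}) := by
          ext M
          simp only [mem_ofPred_eq, mem_inter_iff, mem_st_cons, iff_true]
        rw [h]
        exact (ih1 x).inter ((MeasurableSet.const _).inter (meas_hl _ _ _ _))
      | false =>
        have h : {M : St (C × W) | x ∈ st (bn M) ((S, F, v, false) :: π)} =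
            {M : St (C × W) | x ∈ st (bn M) π} ∩ ({_M : St (C × W) | x ∉ v :: (S ++ zl π)} ∩
              {M : St (C × W) | x ∈ hl (bn M) F v (S.headD v)}ᶜ) := by
          ext M
          simp only [mem_ofPred_eq, mem_inter_iff, mem_st_cons, mem_compl_iff, Bool.false_eq_true,
            iff_false]
        rw [h]
        exact (ih1 x).inter ((MeasurableSet.const _).inter (meas_hl _ _ _ _).compl)
    · exact ih2.inter ((meas_allmem ih1 S).inter ((ih1 v).inter (MeasurableSet.const _)))

theorem pf_MBV [StandardBorelSpace C] : T_MBV C := by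
  intro c0
  have h : {M : St (C × W) | BV c0 M} =
      (⋂ u, ⋂ v, {M : St (C × W) | M.1 u v = decide (u ≠ v)}) ∩
      ({M : St (C × W) | M.2 [] = (c0, w0)} ∩
      ((⋂ x, {M : St (C × W) | (M.2 [x]).2 = w0}) ∩
      ((⋂ x, ⋂ y, {M : St (C × W) | (M.2 [x, y]).1 = c0}) ∩
      ⋂ l : List ℕ, ⋂ _ : 3 ≤ l.length, {M : St (C × W) | M.2 l = (c0, w0)}))) := by
    ext M
    simp only [BV, mem_ofPred_eq, mem_inter_iff, mem_iInter]
  rw [h]
  refine MeasurableSet.inter (MeasurableSet.iInter fun u => MeasurableSet.iInter fun v => ?_)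
    (MeasurableSet.inter ?_ (MeasurableSet.inter (MeasurableSet.iInter fun x => ?_)
    (MeasurableSet.inter (MeasurableSet.iInter fun x => MeasurableSet.iInter fun y => ?_)
    (MeasurableSet.iInter fun l => MeasurableSet.iInter fun _ => ?_))))
  · exact measurable_edge u v (measurableSet_singleton _)
  · exact measurable_value [] (measurableSet_singleton _)
  · exact (measurable_snd.comp (measurable_value [x])) (measurableSet_singleton _)
  · exact (measurable_fst.comp (measurable_value [x, y])) (measurableSet_singleton _)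
  · exact measurable_value l (measurableSet_singleton _)

lemma meas_bfp [StandardBorelSpace C] (π : Pr) (N : St (C × W)) (E : Set ℕ) (r : Rk)
    (p : List (ℕ × ℕ)) : MeasurableSet {M : St (C × W) | bf M N (st (bn M) π) E r p} := by
  induction r generalizing p with
  | zero => exact measurableSet_PI N p
  | sup f ih =>
    have h1 : {M : St (C × W) | bf M N (st (bn M) π) E (Rk.sup f) p} =
        ⋂ n, ({M : St (C × W) | bf M N (st (bn M) π) E (f n) p} ∩
          ((⋂ a, ({M : St (C × W) | a ∈ st (bn M) π}ᶜ ∪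
            ⋃ b, ⋃ _ : b ∈ E, {M : St (C × W) | bf M N (st (bn M) π) E (f n) ((a, b) :: p)})) ∩
          ⋂ b, ⋂ _ : b ∈ E, ⋃ a, ({M : St (C × W) | a ∈ st (bn M) π} ∩
            {M : St (C × W) | bf M N (st (bn M) π) E (f n) ((a, b) :: p)}))) := by
      ext M
      simp only [bf, mem_ofPred_eq, mem_inter_iff, mem_iInter, mem_union, mem_compl_iff,
        mem_iUnion, exists_prop, imp_iff_not_or]
    rw [h1]
    refine MeasurableSet.iInter fun n => (ih n p).inter (MeasurableSet.inter ?_ ?_)
    · refine MeasurableSet.iInter fun a => ((pf_MST π).1 a).compl.union ?_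
      exact MeasurableSet.iUnion fun b => MeasurableSet.iUnion fun _ => ih n _
    · refine MeasurableSet.iInter fun b => MeasurableSet.iInter fun _ =>
        MeasurableSet.iUnion fun a => ((pf_MST π).1 a).inter (ih n _)

theorem pf_FIMP [StandardBorelSpace C] : T_FIMP C := by
  intro a π N b E
  obtain ⟨r, hr⟩ := pf_SCO pf_SC1 pf_SC2 N b E
  have h1 : {M : St (C × W) | FI M a (st (bn M) π) N b E} =
      {_M : St (C × W) | a.length = b.length} ∩
        {M : St (C × W) | bf M N (st (bn M) π) E r (a.zip b)} := by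
    ext M
    constructor
    · intro h
      exact h.fb r
    · intro h
      have h2 : FB r M a (st (bn M) π) N b E := h
      exact (hr M a _ h2.symm).symm
  rw [h1]
  exact (MeasurableSet.const _).inter (meas_bfp π N E r _)

end Pool.Agent.MO
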