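import Pool.Agent.H41.MO.Mov
import Pool.Agent.H41.MO.Mst

/-!
# MVB, RLG: the moves and the orbit relation are Borel
-/

set_option autoImplicit false

open Set Pool.Agent.TK Pool.Agent.H71.VK

namespace Pool.Agent.MO

open Pool.Agent.H41.ST (RelN FlatN)
open Pool.Agent.H94.VK (isoH_fih isoH_inv map_map_inv fih_add fih_rem zip_map_eq meas_rtg)

variable {C : Type} {c0 : C}

/-- a map which agrees with the pairs of a zip -/
lemma map_eq_of_zip (f : ℕ → ℕ) : ∀ (l m : List ℕ), l.length = m.length →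
    (∀ p ∈ l.zip m, f p.1 = p.2) → l.map f = m
  | [], [], _, _ => rfl
  | [], _ :: _, h, _ => by simp at h
  | _ :: _, [], h, _ => by simp at h
  | a :: l, b :: m, h, key => by
    rw [List.map_cons]
    congr 1
    · exact key (a, b) (by simp)
    · exact map_eq_of_zip f l m (by simpa using h) fun p hp => key p (by
        rw [List.zip_cons_cons]
        exact List.mem_cons_of_mem _ hp)

/-! ### local automorphisms -/

/-- the data of a local automorphism move -/
abbrev DaA := Pr × List ℕ × List ℕ × List ℕ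

/-- the condition which describes a local automorphism move with type `t` -/
def CdA (t : Tr C) (d : DaA) (l m : List ℕ) (M : St (C × W)) : Prop :=
  Vd (bn M) d.1 ∧ l.length = m.length ∧
  (∀ z ∈ d.2.1, z ∈ st (bn M) d.1) ∧ (∀ z ∈ d.2.2.1, z ∈ st (bn M) d.1) ∧
  d.2.1.length = d.2.2.1.length ∧ d.2.1.length = d.2.2.2.length ∧
  FI M (zl d.1 ++ d.2.1) (st (bn M) d.1) t.1 (t.2.1 ++ d.2.2.2) t.2.2 ∧
  FI M (zl d.1 ++ d.2.2.1) (st (bn M) d.1) t.1 (t.2.1 ++ d.2.2.2) t.2.2 ∧
  ∀ p ∈ l.zip m, p ∈ d.2.1.zip d.2.2.1 ∨ (p.1 = p.2 ∧ p.1 ∉ st (bn M) d.1)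

theorem cdA_of_mv {O : Set (Tr C)} {M : St (C × W)} {l m : List ℕ}
    (h : MvA O M l m) : ∃ t ∈ O, ∃ d : DaA, CdA t d l m M := by
  classical
  obtain ⟨f, ⟨hf, π, hV, ⟨t, ht, h0, H0⟩, hfix⟩, rfl⟩ := h
  set D := st (bn M) π with hD
  have hfs : ∀ z ∈ zl π, f z = z := fun z hz => hfix z (zl_disj hV z hz)
  have hmem : ∀ a ∈ D, f a ∈ D := by
    intro a ha
    by_contra hcon
    have h1 := hfix _ hcon
    have h2 : f a = a := f.injective h1
    rw [h2] at hcon
    exact hcon ha
  have hfD : f '' D = D := by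
    ext x
    constructor
    · rintro ⟨y, hy, rfl⟩
      exact hmem y hy
    · intro hx
      by_cases h1 : f.symm x ∈ D
      · exact ⟨f.symm x, h1, f.apply_symm_apply x⟩
      · have h2 := hfix _ h1
        rw [f.apply_symm_apply] at h2
        rw [← h2] at h1
        exact absurd hx h1
  set u : List ℕ := l.filter (fun z => decide (z ∈ D)) with hu
  have huD : ∀ z ∈ u, z ∈ D := by
    intro z hz
    rw [hu, List.mem_filter] at hz
    simpa using hz.2
  have huD' : ∀ z ∈ u.map f, z ∈ D := by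
    intro z hz
    obtain ⟨w, hw, rfl⟩ := List.mem_map.1 hz
    exact hmem w (huD w hw)
  have F1 : FI M (zl π ++ u) D t.1 (t.2.1 ++ u.map h0) t.2.2 := ⟨h0, fih_add H0 u huD⟩
  have F2 : FI M (zl π ++ u.map f) D M (zl π ++ u) D :=
    (show FI M (zl π ++ u) D M (zl π ++ u.map f) D from
      ⟨_, fih_add (isoH_fih hf hfs hfD) u huD⟩).symm
  refine ⟨t, ht, (π, u, u.map f, u.map h0), hV, (List.length_map _).symm, huD, huD',
    (List.length_map _).symm, (List.length_map _).symm, F1, F2.trans F1, ?_⟩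
  intro p hp
  change p ∈ u.zip (u.map f) ∨ (p.1 = p.2 ∧ p.1 ∉ D)
  rw [← zip_map_eq]
  rw [← zip_map_eq] at hp
  obtain ⟨a, ha, rfl⟩ := List.mem_map.1 hp
  simp only
  by_cases h1 : a ∈ D
  · refine Or.inl (List.mem_map.2 ⟨a, ?_, rfl⟩)
    rw [hu, List.mem_filter]
    exact ⟨ha, by simpa using h1⟩
  · exact Or.inr ⟨(hfix a h1).symm, h1⟩

theorem mv_of_cdA {O : Set (Tr C)} {M : St (C × W)} (hM : BV c0 M)
    {l m : List ℕ} {t : Tr C} (ht : t ∈ O) {d : DaA} (h : CdA t d l m M) : MvA O M l m := by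
  obtain ⟨π, u, u', w⟩ := d
  obtain ⟨hV, hlm, hu, hu', huu, huw, F1, F2, hp⟩ := h
  simp only at hV hu hu' huu huw F1 F2 hp
  have hst : (zl π).length = t.2.1.length := by
    have := F1.length
    rw [List.length_append, List.length_append] at this
    omega
  obtain ⟨g, F3⟩ := F1.trans F2.symm
  obtain ⟨F4, hg⟩ := fih_rem rfl hu F3
  obtain ⟨f, hf, hfg, hfix⟩ := pf_GLA (c0 := c0) M hM π hV g F4
  obtain ⟨h1, H1⟩ := F1
  refine ⟨f, ⟨hf, π, hV, ⟨t, ht, h1, (fih_rem hst hu H1).1⟩, hfix⟩, ?_⟩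
  refine map_eq_of_zip f l m hlm fun p hpm => ?_
  rcases hp p hpm with h | ⟨h2, h3⟩
  · rw [hfg _ (hu _ (List.of_mem_zip h).1)]
    exact hg p h
  · rw [hfix _ h3]
    exact h2

theorem meas_cdA [MeasurableSpace C] [StandardBorelSpace C] (t : Tr C)
    (d : DaA) (l m : List ℕ) : MeasurableSet {M : St (C × W) | CdA t d l m M} := by
  have hmem := fun π : Pr => (pf_MST (C := C) π).1
  unfold CdA
  refine (pf_MST (C := C) d.1).2.inter ((MeasurableSet.const _).inter
    ((meas_allmem (hmem _) _).inter ((meas_allmem (hmem _) _).inter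
    ((MeasurableSet.const _).inter ((MeasurableSet.const _).inter ((pf_FIMP _ _ _ _ _).inter
    ((pf_FIMP _ _ _ _ _).inter ?_)))))))
  have : {M : St (C × W) | ∀ p ∈ l.zip m, p ∈ d.2.1.zip d.2.2.1 ∨
      (p.1 = p.2 ∧ p.1 ∉ st (bn M) d.1)} =
      ⋂ p ∈ {p | p ∈ l.zip m}, {M : St (C × W) | p ∈ d.2.1.zip d.2.2.1 ∨
      (p.1 = p.2 ∧ p.1 ∉ st (bn M) d.1)} := by
    ext M
    simp only [mem_ofPred_eq, mem_iInter]
  change MeasurableSet {M : St (C × W) | ∀ p ∈ l.zip m, p ∈ d.2.1.zip d.2.2.1 ∨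
      (p.1 = p.2 ∧ p.1 ∉ st (bn M) d.1)}
  rw [this]
  refine MeasurableSet.biInter (to_countable _) fun p _ => ?_
  exact (MeasurableSet.const _).union ((MeasurableSet.const _).inter (hmem _ _).compl)

theorem pf_MVB [MeasurableSpace C] [StandardBorelSpace C] : T_MVB C c0 := by
  intro O hO l m
  have h : {M : St (C × W) | BV c0 M ∧ MvA O M l m} = {M : St (C × W) | BV c0 M} ∩
      ⋃ t ∈ O, ⋃ d : DaA, {M : St (C × W) | CdA t d l m M} := by
    ext M
    simp only [mem_inter_iff, mem_ofPred_eq, mem_iUnion, exists_prop]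
    constructor
    · rintro ⟨h1, h2⟩
      exact ⟨h1, cdA_of_mv h2⟩
    · rintro ⟨h1, t, ht, d, h2⟩
      exact ⟨h1, mv_of_cdA h1 ht h2⟩
  rw [h]
  exact (pf_MBV c0).inter (MeasurableSet.biUnion hO fun t _ =>
    MeasurableSet.iUnion fun d => meas_cdA t d l m)

/-! ### the orbit relation -/

lemma isA_inv {O : Set (Tr C)} {M : St (C × W)} {f : Equiv.Perm ℕ} (h : IsA O M f) :
    IsA O M f⁻¹ := by
  obtain ⟨h1, π, h2, h3, h4⟩ := h
  refine ⟨isoH_inv h1, π, h2, h3, fun x hx => ?_⟩
  change f.symm x = x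
  rw [Equiv.symm_apply_eq, h4 x hx]

lemma mvg_symm {O : Set (Tr C)} {M : St (C × W)} {l m : List ℕ} (h : MvA O M l m) :
    MvA O M m l := by
  obtain ⟨f, hf, rfl⟩ := h
  exact ⟨f⁻¹, isA_inv hf, (map_map_inv f l).2⟩

theorem rlg1 (O : Set (Tr C)) (M : St (C × W)) (l m : List ℕ) : RelN (NG O M) l m ↔
    Relation.ReflTransGen (fun l m => MvA O M l m) l m := by
  constructor
  · rintro ⟨n, hn, rfl⟩
    unfold NG at hn
    revert l
    induction hn using Subgroup.closure_induction with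
    | mem x hx =>
      intro l
      exact Relation.ReflTransGen.single ⟨x, hx, rfl⟩
    | one =>
      intro l
      have : l.map (1 : Equiv.Perm ℕ) = l := by simp
      rw [this]
    | mul x y _ _ hx hy =>
      intro l
      have : l.map (x * y : Equiv.Perm ℕ) = (l.map y).map x := by
        rw [List.map_map, ← Equiv.Perm.coe_mul]
      rw [this]
      exact (hy l).trans (hx (l.map y))
    | inv x _ hx =>
      intro l
      have h1 := hx (l.map (x⁻¹ : Equiv.Perm ℕ))
      rw [(map_map_inv x l).1] at h1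
      have hs' : ∀ a b, Relation.ReflTransGen (fun l m => MvA O M l m) a b →
          Relation.ReflTransGen (fun l m => MvA O M l m) b a := by
        intro a b hab
        induction hab with
        | refl => exact Relation.ReflTransGen.refl
        | @tail b c _ h2 ih =>
          have h3 : (fun l m => MvA O M l m) c b := mvg_symm h2
          exact (Relation.ReflTransGen.single (r := fun l m => MvA O M l m) h3).trans ih
      exact hs' _ _ h1
  · intro h
    induction h with
    | refl => exact ⟨1, one_mem _, by simp⟩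
    | tail _ h2 ih =>
      obtain ⟨n, hn, rfl⟩ := ih
      obtain ⟨f, hf, rfl⟩ := h2
      refine ⟨f * n, mul_mem (Subgroup.subset_closure hf) hn, ?_⟩
      rw [List.map_map, ← Equiv.Perm.coe_mul]

theorem pf_RLG [MeasurableSpace C] [StandardBorelSpace C] : T_RLG C c0 := by
  refine ⟨rlg1, ?_⟩
  intro O hO l m
  have h : {M : St (C × W) | BV c0 M ∧ RelN (NG O M) l m} = {M : St (C × W) | BV c0 M} ∩
      {M : St (C × W) | Relation.ReflTransGen
        (fun l m => BV c0 M ∧ MvA O M l m) l m} := by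
    ext M
    simp only [mem_inter_iff, mem_ofPred_eq]
    constructor
    · rintro ⟨h1, h2⟩
      refine ⟨h1, ?_⟩
      rw [rlg1 O M l m] at h2
      exact Relation.ReflTransGen.mono (r := fun l m => MvA O M l m)
        (p := fun l m => BV c0 M ∧ MvA O M l m)
        (fun _ _ hs => ⟨h1, hs⟩) _ _ h2
    · rintro ⟨h1, h2⟩
      refine ⟨h1, ?_⟩
      rw [rlg1 O M l m]
      exact Relation.ReflTransGen.mono
        (r := fun l m => BV c0 M ∧ MvA O M l m)
        (p := fun l m => MvA O M l m) (fun _ _ hs => hs.2) _ _ h2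
  rw [h]
  exact (pf_MBV c0).inter (meas_rtg _ (fun l m => pf_MVB O hO l m) l m)

end Pool.Agent.MO
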